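import Mathlib

/-!
# Integral points near a determinantal cone

Helper file.
-/

set_option autoImplicit false

namespace Pool.Agent.Q116.GT

open Finset Matrix

lemma prod_ge {m : Multiset ℝ} {y : ℝ} (hy : 0 ≤ y) (h : ∀ x ∈ m, y ≤ x) : y ^ m.card ≤ m.prod := by
  induction m using Multiset.induction_on with
  | empty => simp
  | cons a s ih =>
    rw [Multiset.card_cons, Multiset.prod_cons, pow_succ, mul_comm]
    exact mul_le_mul (h a (Multiset.mem_cons_self a s))
      (ih fun x hx => h x (Multiset.mem_cons_of_mem hx)) (pow_nonneg hy _)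
      (hy.trans (h a (Multiset.mem_cons_self a s)))

/-- The number of integers at which a complex polynomial is small. -/
theorem card_small {P : Polynomial ℂ} {n : ℕ} (hd : P.natDegree = n) {M y : ℝ}
    (hy : 0 ≤ y) (hM : M < ‖P.leadingCoeff‖ * y ^ n) (S : Finset ℤ)
    (hS : ∀ s ∈ S, ‖P.eval (s : ℂ)‖ ≤ M) : (S.card : ℝ) ≤ n * (2 * y + 1) := by
  classical
  have hsp := IsAlgClosed.splits P
  have hcard : P.roots.card = n := by
    rw [← hd]
    exact (Polynomial.splits_iff_card_roots.1 hsp)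
  have hroot : ∀ s ∈ S, ∃ ρ ∈ P.roots.toFinset, ‖(s : ℂ) - ρ‖ < y := by
    intro s hs
    by_contra hcon
    push Not at hcon
    have h1 : P.eval (s : ℂ) = P.leadingCoeff * (P.roots.map fun ρ => (s : ℂ) - ρ).prod :=
      Polynomial.Splits.eval_eq_prod_roots hsp _
    have h2 : ‖P.eval (s : ℂ)‖ = ‖P.leadingCoeff‖ * (P.roots.map fun ρ => ‖(s : ℂ) - ρ‖).prod := by
      rw [h1, norm_mul]
      congr 1
      have h5 := map_multiset_prod (normHom : ℂ →*₀ ℝ) (P.roots.map fun ρ => (s : ℂ) - ρ)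
      rw [Multiset.map_map] at h5
      exact h5
    have h3 : y ^ n ≤ (P.roots.map fun ρ => ‖(s : ℂ) - ρ‖).prod := by
      have h4 := prod_ge (m := P.roots.map fun ρ => ‖(s : ℂ) - ρ‖) hy (by
        intro x hx
        obtain ⟨ρ, hρ, rfl⟩ := Multiset.mem_map.1 hx
        exact hcon ρ (Multiset.mem_toFinset.2 hρ))
      rwa [Multiset.card_map, hcard] at h4
    have h4 := hS s hs
    rw [h2] at h4
    have h5 := mul_le_mul_of_nonneg_left h3 (norm_nonneg P.leadingCoeff)
    linarith
  have hsub : S ⊆ P.roots.toFinset.biUnion fun ρ =>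
      Finset.Icc ⌈ρ.re - y⌉ ⌊ρ.re + y⌋ := by
    intro s hs
    obtain ⟨ρ, hρ, h1⟩ := hroot s hs
    have h2 : |(s : ℝ) - ρ.re| < y := by
      have h3 := Complex.abs_re_le_norm ((s : ℂ) - ρ)
      rw [Complex.sub_re, Complex.intCast_re] at h3
      exact h3.trans_lt h1
    rw [abs_lt] at h2
    refine Finset.mem_biUnion.2 ⟨ρ, hρ, Finset.mem_Icc.2 ⟨Int.ceil_le.2 (by linarith),
      Int.le_floor.2 (by linarith)⟩⟩
  have hc1 : ∀ ρ : ℂ, ((Finset.Icc ⌈ρ.re - y⌉ ⌊ρ.re + y⌋).card : ℝ) ≤ 2 * y + 1 := by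
    intro ρ
    rw [Int.card_Icc]
    have h1 : (⌊ρ.re + y⌋ : ℝ) ≤ ρ.re + y := Int.floor_le _
    have h2 : ρ.re - y ≤ (⌈ρ.re - y⌉ : ℝ) := Int.le_ceil _
    rcases le_total 0 (⌊ρ.re + y⌋ + 1 - ⌈ρ.re - y⌉) with h3 | h3
    · have h4 : (((⌊ρ.re + y⌋ + 1 - ⌈ρ.re - y⌉).toNat : ℤ) : ℝ) =
          ((⌊ρ.re + y⌋ + 1 - ⌈ρ.re - y⌉ : ℤ) : ℝ) := by
        rw [Int.toNat_of_nonneg h3]
      have h5 : (((⌊ρ.re + y⌋ + 1 - ⌈ρ.re - y⌉).toNat : ℕ) : ℝ) =
          ((⌊ρ.re + y⌋ + 1 - ⌈ρ.re - y⌉ : ℤ) : ℝ) := by exact_mod_cast h4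
      rw [h5]
      push_cast
      linarith
    · rw [Int.toNat_of_nonpos h3]
      push_cast
      linarith
  calc (S.card : ℝ) ≤ ((P.roots.toFinset.biUnion fun ρ =>
        Finset.Icc ⌈ρ.re - y⌉ ⌊ρ.re + y⌋).card : ℝ) := by
        exact_mod_cast Finset.card_le_card hsub
    _ ≤ ((∑ ρ ∈ P.roots.toFinset, (Finset.Icc ⌈ρ.re - y⌉ ⌊ρ.re + y⌋).card : ℕ) : ℝ) := by
        exact_mod_cast Finset.card_biUnion_le
    _ ≤ ∑ _ρ ∈ P.roots.toFinset, (2 * y + 1) := by
        push_cast
        exact Finset.sum_le_sum fun ρ _ => hc1 ρ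
    _ = (P.roots.toFinset.card : ℝ) * (2 * y + 1) := by
        rw [Finset.sum_const, nsmul_eq_mul]
    _ ≤ n * (2 * y + 1) := by
        refine mul_le_mul_of_nonneg_right ?_ (by linarith)
        have := Multiset.toFinset_card_le P.roots
        rw [hcard] at this
        exact_mod_cast this

/-- A matrix which maps a vector of norm one to a small vector has a small determinant. -/
theorem det_small {n : ℕ} (A : Matrix (Fin n) (Fin n) ℝ) {L B : ℝ} (hL0 : 0 ≤ L)
    (hB0 : 0 ≤ B) (hL : ∀ i j, |A i j| ≤ L) (φ : Fin n → ℝ) (hφ : ‖φ‖ = 1)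
    (hB : ∀ i, |∑ j, φ j * A i j| ≤ B) : |A.det| ≤ n.factorial * (B * L ^ (n - 1)) := by
  classical
  have key : ∀ j, |A.det * φ j| ≤ n.factorial * (B * L ^ (n - 1)) := by
    intro j
    have h1 : A.det * φ j = (A.updateCol j (A *ᵥ φ)).det := by
      have h2 : cramer A (A *ᵥ φ) = A.det • φ := by
        rw [cramer_eq_adjugate_mulVec, mulVec_mulVec, adjugate_mul, smul_mulVec, one_mulVec]
      have h3 := congrFun h2 j
      rw [cramer_apply, Pi.smul_apply, smul_eq_mul] at h3
      exact h3.symm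
    rw [h1, det_apply]
    have hterm : ∀ σ : Equiv.Perm (Fin n),
        |Equiv.Perm.sign σ • ∏ i, A.updateCol j (A *ᵥ φ) (σ i) i| ≤ B * L ^ (n - 1) := by
      intro σ
      have h2 : |Equiv.Perm.sign σ • ∏ i, A.updateCol j (A *ᵥ φ) (σ i) i| =
          ∏ i, |A.updateCol j (A *ᵥ φ) (σ i) i| := by
        rw [← Finset.abs_prod]
        rcases Int.units_eq_one_or (Equiv.Perm.sign σ) with h | h
        · rw [h, one_smul]
        · rw [h, Units.neg_smul, one_smul, abs_neg]
      rw [h2, ← Finset.mul_prod_erase _ _ (Finset.mem_univ j)]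
      refine mul_le_mul ?_ ?_ (Finset.prod_nonneg fun _ _ => abs_nonneg _) hB0
      · rw [updateCol_self]
        have h3 : (A *ᵥ φ) (σ j) = ∑ l, φ l * A (σ j) l := by
          rw [mulVec, dotProduct]
          exact Finset.sum_congr rfl fun l _ => mul_comm _ _
        rw [h3]
        exact hB _
      · calc ∏ i ∈ univ.erase j, |A.updateCol j (A *ᵥ φ) (σ i) i|
            ≤ ∏ _i ∈ univ.erase j, L := by
              refine Finset.prod_le_prod (fun _ _ => abs_nonneg _) fun i hi => ?_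
              rw [updateCol_ne (Finset.ne_of_mem_erase hi)]
              exact hL _ _
          _ = L ^ (n - 1) := by
              rw [Finset.prod_const, Finset.card_erase_of_mem (Finset.mem_univ j),
                Finset.card_univ, Fintype.card_fin]
    calc |∑ σ : Equiv.Perm (Fin n), Equiv.Perm.sign σ • ∏ i, A.updateCol j (A *ᵥ φ) (σ i) i|
        ≤ ∑ σ : Equiv.Perm (Fin n),
          |Equiv.Perm.sign σ • ∏ i, A.updateCol j (A *ᵥ φ) (σ i) i| :=
          Finset.abs_sum_le_sum_abs _ _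
      _ ≤ ∑ _σ : Equiv.Perm (Fin n), B * L ^ (n - 1) :=
          Finset.sum_le_sum fun σ _ => hterm σ
      _ = n.factorial * (B * L ^ (n - 1)) := by
          rw [Finset.sum_const, Finset.card_univ, Fintype.card_perm, Fintype.card_fin, nsmul_eq_mul]
  have h2 : ‖A.det • φ‖ = |A.det| := by
    rw [norm_smul, hφ, mul_one, Real.norm_eq_abs]
  rw [← h2]
  refine (pi_norm_le_iff_of_nonneg (by positivity)).2 fun j => ?_
  rw [Pi.smul_apply, smul_eq_mul, Real.norm_eq_abs]
  exact key j

/-- The points of a box at which a determinant of linear forms is small. -/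
theorem count_det {ι : Type} [Fintype ι] {n : ℕ} (hn : 1 ≤ n) (w : ι → Matrix (Fin n) (Fin n) ℝ) (u : ι → ℤ)
    (hu : (∑ k, (u k : ℝ) • w k).det ≠ 0) {C : ℝ} (hC : 0 ≤ C) :
    ∃ c : ℝ, 0 ≤ c ∧ ∀ R : ℕ, 1 ≤ R → ∀ S : Finset (ι → ℤ),
      (∀ e ∈ S, (∀ k, |e k| ≤ R) ∧ |(∑ k, (e k : ℝ) • w k).det| ≤ C * (R : ℝ) ^ (n - 1)) →
      (S.card : ℝ) ≤ c * (R : ℝ) ^ ((Fintype.card ι : ℝ) - 1 / n) := by
  classical
  -- a nonzero coordinate of `u`
  obtain ⟨k0, hk0⟩ : ∃ k, u k ≠ 0 := by
    by_contra hcon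
    push Not at hcon
    apply hu
    have h1 : (∑ k, (u k : ℝ) • w k) = 0 := by
      refine Finset.sum_eq_zero fun k _ => ?_
      rw [hcon k, Int.cast_zero, zero_smul]
    have hne : Nonempty (Fin n) := ⟨⟨0, hn⟩⟩
    rw [h1, det_zero]
  set D : ℝ := |(∑ k, (u k : ℝ) • w k).det| with hD
  have hDpos : 0 < D := abs_pos.2 hu
  set U : ℕ := ∑ k, (u k).natAbs with hU
  have hUk : ∀ k, |u k| ≤ (U : ℤ) := by
    intro k
    rw [Int.abs_eq_natAbs]
    exact_mod_cast Finset.single_le_sum (f := fun k => (u k).natAbs) (fun _ _ => Nat.zero_le _)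
      (Finset.mem_univ k)
  have hr1 : 1 ≤ Fintype.card ι := Fintype.card_pos_iff.2 ⟨k0⟩
  have hn0 : (0 : ℝ) < n := by exact_mod_cast hn
  set Y : ℝ := ((C + 1) / D) ^ ((1 : ℝ) / n) with hY
  have hY0 : 0 ≤ Y := Real.rpow_nonneg (by positivity) _
  refine ⟨(n * (2 * Y + 1)) * ((|u k0| : ℤ) * (2 * (1 + U) + 1) ^ (Fintype.card ι - 1)),
    by positivity, fun R hR S hS => ?_⟩
  have hR1 : (1 : ℝ) ≤ R := by exact_mod_cast hR
  have hR0 : (0 : ℝ) < R := by linarith
  -- the decomposition into lines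
  let q : (ι → ℤ) → ℤ := fun e => e k0 / u k0
  let f : (ι → ℤ) → (ι → ℤ) := fun e k => e k - q e * u k
  set y : ℝ := Y * (R : ℝ) ^ (((n : ℝ) - 1) / n) with hy
  have hy0 : 0 ≤ y := by positivity
  have hyn : D * y ^ n = (C + 1) * (R : ℝ) ^ (n - 1) := by
    have h1 : Y ^ n = (C + 1) / D := by
      rw [hY, ← Real.rpow_natCast, ← Real.rpow_mul (by positivity), one_div,
        inv_mul_cancel₀ hn0.ne', Real.rpow_one]
    have h2 : ((R : ℝ) ^ (((n : ℝ) - 1) / n)) ^ n = (R : ℝ) ^ (n - 1) := by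
      rw [← Real.rpow_natCast, ← Real.rpow_mul hR0.le, div_mul_cancel₀ _ hn0.ne',
        ← Real.rpow_natCast, Nat.cast_sub hn, Nat.cast_one]
    rw [hy, mul_pow, h1, h2]
    field_simp
  have hfib : ∀ a ∈ S.image f, #{x ∈ S | f x = a} ≤ ⌊(n : ℝ) * (2 * y + 1)⌋₊ := by
    intro a _
    apply Nat.le_floor
    have hinj : Set.InjOn q (({x ∈ S | f x = a} : Finset (ι → ℤ)) : Set (ι → ℤ)) := by
      intro x hx x' hx' hqq
      have h1 := (Finset.mem_filter.1 hx).2
      have h2 := (Finset.mem_filter.1 hx').2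
      funext k
      have h3 := congrFun (h1.trans h2.symm) k
      change x k - q x * u k = x' k - q x' * u k at h3
      rw [hqq] at h3
      linarith
    rw [← Finset.card_image_of_injOn hinj]
    let P : Polynomial ℝ := det ((Polynomial.X : Polynomial ℝ) •
      (∑ k, (u k : ℝ) • w k).map Polynomial.C + (∑ k, (a k : ℝ) • w k).map Polynomial.C)
    have hcoef : P.coeff n = (∑ k, (u k : ℝ) • w k).det := by
      have h1 := Polynomial.coeff_det_X_add_C_card (∑ k, (u k : ℝ) • w k) (∑ k, (a k : ℝ) • w k)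
      rwa [Fintype.card_fin] at h1
    have hdle : P.natDegree ≤ n := by
      have h1 := Polynomial.natDegree_det_X_add_C_le (∑ k, (u k : ℝ) • w k)
        (∑ k, (a k : ℝ) • w k)
      rwa [Fintype.card_fin] at h1
    have hdeg : P.natDegree = n := by
      refine le_antisymm hdle (Polynomial.le_natDegree_of_ne_zero ?_)
      rw [hcoef]
      exact hu
    have hev : ∀ s : ℝ, P.eval s = (s • (∑ k, (u k : ℝ) • w k) + ∑ k, (a k : ℝ) • w k).det := by
      intro s
      have h1 : P.eval s = (Polynomial.evalRingHom s) P := rfl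
      rw [h1, RingHom.map_det]
      congr 1
      ext i j
      simp [RingHom.mapMatrix_apply, Matrix.map_apply, Matrix.add_apply, Matrix.smul_apply]
      ring
    have hdegC : (P.map (algebraMap ℝ ℂ)).natDegree = n := by
      rw [Polynomial.natDegree_map_eq_of_injective (algebraMap ℝ ℂ).injective, hdeg]
    have hlead : ‖(P.map (algebraMap ℝ ℂ)).leadingCoeff‖ = D := by
      rw [Polynomial.leadingCoeff, hdegC, Polynomial.coeff_map, hcoef, Complex.coe_algebraMap,
        Complex.norm_real, Real.norm_eq_abs]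
    refine card_small hdegC (M := C * (R : ℝ) ^ (n - 1)) hy0 ?_ _ ?_
    · rw [hlead, hyn]
      exact mul_lt_mul_of_pos_right (by linarith) (by positivity)
    · intro s hs
      obtain ⟨x, hx, rfl⟩ := Finset.mem_image.1 hs
      obtain ⟨hxS, hxa⟩ := Finset.mem_filter.1 hx
      have h1 : (Polynomial.map (algebraMap ℝ ℂ) P).eval ((q x : ℤ) : ℂ) =
          ((P.eval ((q x : ℤ) : ℝ) : ℝ) : ℂ) := by
        have h2 : ((q x : ℤ) : ℂ) = (algebraMap ℝ ℂ) ((q x : ℤ) : ℝ) := by
          rw [Complex.coe_algebraMap]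
          push_cast
          rfl
        rw [h2, Polynomial.eval_map_algebraMap, Polynomial.aeval_algebraMap_apply,
          Complex.coe_algebraMap, Polynomial.coe_aeval_eq_eval]
      rw [h1, Complex.norm_real, Real.norm_eq_abs, hev]
      have h3 : ((q x : ℤ) : ℝ) • (∑ k, (u k : ℝ) • w k) + ∑ k, (a k : ℝ) • w k =
          ∑ k, (x k : ℝ) • w k := by
        rw [Finset.smul_sum, ← Finset.sum_add_distrib]
        refine Finset.sum_congr rfl fun k _ => ?_
        rw [smul_smul, ← add_smul]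
        congr 1
        have h4 : a k = x k - q x * u k := congrFun hxa.symm k
        rw [h4]
        push_cast
        ring
      rw [h3]
      exact (hS x hxS).2
  have himg : ((S.image f).card : ℝ) ≤
      (|u k0| : ℤ) * ((2 * (1 + U) + 1) ^ (Fintype.card ι - 1) * (R : ℝ) ^ (Fintype.card ι - 1)) := by
    let Z : ℤ := R * (1 + U)
    have hZ0 : 0 ≤ Z := by positivity
    have hsub : S.image f ⊆ Fintype.piFinset fun k =>
        if k = k0 then Finset.Ico 0 |u k0| else Finset.Icc (-Z) Z := by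
      intro a ha
      obtain ⟨e, he, rfl⟩ := Finset.mem_image.1 ha
      obtain ⟨hek, -⟩ := hS e he
      rw [Fintype.mem_piFinset]
      intro k
      by_cases hk : k = k0
      · subst hk
        rw [if_pos rfl, Finset.mem_Ico]
        have h1 : f e k = e k % u k := by
          change e k - e k / u k * u k = e k % u k
          rw [Int.emod_def]
          ring
        rw [h1]
        exact ⟨Int.emod_nonneg _ hk0, Int.emod_lt_abs _ hk0⟩
      · rw [if_neg hk, Finset.mem_Icc, ← abs_le]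
        have hq : |q e| ≤ R := by
          have h1 : |e k0| ≤ R := hek k0
          have h2 : |q e| ≤ |e k0| := by
            change |e k0 / u k0| ≤ |e k0|
            exact Int.abs_ediv_le_abs _ _
          exact h2.trans h1
        calc |f e k| = |e k - q e * u k| := rfl
          _ ≤ |e k| + |q e * u k| := abs_sub _ _
          _ ≤ R + R * U := by
              rw [abs_mul]
              exact add_le_add (hek k) (mul_le_mul hq (hUk k) (abs_nonneg _) (by positivity))
          _ = Z := by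
              change (R : ℤ) + R * U = R * (1 + U)
              ring
    have hcard := Finset.card_le_card hsub
    rw [Fintype.card_piFinset, ← Finset.mul_prod_erase _ _ (Finset.mem_univ k0), if_pos rfl,
      Int.card_Ico, sub_zero] at hcard
    have h1 : ∏ k ∈ univ.erase k0, (if k = k0 then Finset.Ico 0 |u k0| else
        Finset.Icc (-Z) Z).card = (2 * Z + 1).toNat ^ (Fintype.card ι - 1) := by
      rw [Finset.prod_congr rfl (g := fun _ => (2 * Z + 1).toNat), Finset.prod_const,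
        Finset.card_erase_of_mem (Finset.mem_univ k0), Finset.card_univ]
      intro k hk
      rw [if_neg (Finset.ne_of_mem_erase hk), Int.card_Icc]
      congr 1
      ring
    rw [h1] at hcard
    have h2 : (((|u k0|).toNat : ℕ) : ℝ) = ((|u k0| : ℤ) : ℝ) := by
      have h3 : (((|u k0|).toNat : ℤ) : ℝ) = ((|u k0| : ℤ) : ℝ) := by
        rw [Int.toNat_of_nonneg (abs_nonneg _)]
      exact_mod_cast h3
    have h3 : (((2 * Z + 1).toNat : ℕ) : ℝ) = 2 * (R * (1 + U)) + 1 := by
      have h4 : (((2 * Z + 1).toNat : ℤ) : ℝ) = ((2 * Z + 1 : ℤ) : ℝ) := by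
        rw [Int.toNat_of_nonneg (by positivity)]
      have h5 : ((2 * Z + 1 : ℤ) : ℝ) = 2 * (R * (1 + U)) + 1 := by
        change ((2 * ((R : ℤ) * (1 + U)) + 1 : ℤ) : ℝ) = 2 * (R * (1 + U)) + 1
        push_cast
        ring
      rw [← h5, ← h4]
      rfl
    have h4 : ((S.image f).card : ℝ) ≤ ((|u k0| : ℤ) : ℝ) * (2 * (R * (1 + U)) + 1) ^ (Fintype.card ι - 1) := by
      rw [← h2, ← h3]
      exact_mod_cast hcard
    refine h4.trans (mul_le_mul_of_nonneg_left ?_ (by positivity))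
    rw [← mul_pow]
    refine pow_le_pow_left₀ (by positivity) ?_ _
    nlinarith
  have hmain := Finset.card_le_mul_card_image S _ hfib
  have h1 : (S.card : ℝ) ≤ (⌊(n : ℝ) * (2 * y + 1)⌋₊ : ℝ) * ((S.image f).card : ℝ) := by
    exact_mod_cast hmain
  have h2 : (⌊(n : ℝ) * (2 * y + 1)⌋₊ : ℝ) ≤
      (n * (2 * Y + 1)) * (R : ℝ) ^ (((n : ℝ) - 1) / n) := by
    refine (Nat.floor_le (by positivity)).trans ?_
    rw [mul_assoc]
    refine mul_le_mul_of_nonneg_left ?_ hn0.le
    have h3 : (1 : ℝ) ≤ (R : ℝ) ^ (((n : ℝ) - 1) / n) := by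
      refine Real.one_le_rpow hR1 (div_nonneg ?_ hn0.le)
      have : (1 : ℝ) ≤ n := by exact_mod_cast hn
      linarith
    rw [hy]
    nlinarith
  have h3 : (R : ℝ) ^ ((Fintype.card ι : ℝ) - 1 / n) =
      (R : ℝ) ^ (((n : ℝ) - 1) / n) * (R : ℝ) ^ (Fintype.card ι - 1) := by
    rw [← Real.rpow_natCast (R : ℝ) (Fintype.card ι - 1), ← Real.rpow_add hR0, Nat.cast_sub hr1, Nat.cast_one]
    congr 1
    field_simp
    ring
  rw [h3]
  calc (S.card : ℝ) ≤ (⌊(n : ℝ) * (2 * y + 1)⌋₊ : ℝ) * ((S.image f).card : ℝ) := h1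
    _ ≤ ((n * (2 * Y + 1)) * (R : ℝ) ^ (((n : ℝ) - 1) / n)) *
        ((|u k0| : ℤ) * ((2 * (1 + U) + 1) ^ (Fintype.card ι - 1) * (R : ℝ) ^ (Fintype.card ι - 1))) :=
        mul_le_mul h2 himg (Nat.cast_nonneg _) (by positivity)
    _ = _ := by ring

/-- If some combination of the rows spans, then some minor does not vanish at an integral point. -/
theorem exists_minor {ι κ : Type} [Fintype ι] {n : ℕ} (w : ι → κ → Fin n → ℝ) (m : ι → ℝ)
    (hspan : Submodule.span ℝ (Set.range fun (i : κ) (j : Fin n) => ∑ k, m k * w k i j) = ⊤) :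
    ∃ f : Fin n → κ, ∃ u : ι → ℤ,
      (∑ k, (u k : ℝ) • Matrix.of fun a j => w k (f a) j).det ≠ 0 := by
  classical
  have hfr : Module.finrank ℝ (Submodule.span ℝ
      (Set.range fun (i : κ) (j : Fin n) => ∑ k, m k * w k i j)) = n := by
    rw [hspan, finrank_top, Module.finrank_fin_fun]
  obtain ⟨g, hg1, -, hg3⟩ := Submodule.exists_fun_fin_finrank_span_eq ℝ
    (Set.range fun (i : κ) (j : Fin n) => ∑ k, m k * w k i j)
  let e : Fin n ≃ Fin (Module.finrank ℝ (Submodule.span ℝ
      (Set.range fun (i : κ) (j : Fin n) => ∑ k, m k * w k i j))) := finCongr hfr.symm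
  choose f hf using fun a : Fin n => hg1 (e a)
  refine ⟨f, ?_⟩
  -- the determinant as a polynomial
  let P : MvPolynomial ι ℝ :=
    (Matrix.of fun (a j : Fin n) => ∑ k, MvPolynomial.X k * MvPolynomial.C (w k (f a) j)).det
  have hev : ∀ x : ι → ℝ, MvPolynomial.eval x P =
      (∑ k, x k • Matrix.of fun a j => w k (f a) j).det := by
    intro x
    rw [RingHom.map_det]
    congr 1
    ext a j
    simp [RingHom.mapMatrix_apply, Matrix.map_apply, Matrix.sum_apply]
  have hne : MvPolynomial.eval m P ≠ 0 := by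
    rw [hev]
    have h1 : (∑ k, m k • Matrix.of fun a j => w k (f a) j) = Matrix.of fun a => g (e a) := by
      ext a j
      rw [Matrix.of_apply, ← hf a]
      simp [Matrix.sum_apply]
    rw [h1]
    have h2 : LinearIndependent ℝ (Matrix.of fun a => g (e a)).row := hg3.comp e e.injective
    have h3 := Matrix.linearIndependent_rows_iff_isUnit.1 h2
    exact ((Matrix.isUnit_iff_isUnit_det _).1 h3).ne_zero
  by_contra hcon
  push Not at hcon
  have hP : P = 0 := by
    refine MvPolynomial.funext_set (fun _ : ι => Set.range ((↑) : ℤ → ℝ))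
      (fun _ => Set.infinite_range_of_injective Int.cast_injective) fun x hx => ?_
    have hx' : ∀ k, ∃ z : ℤ, (z : ℝ) = x k := fun k => hx k (Set.mem_univ k)
    choose u hu using hx'
    have h1 := hcon u
    rw [map_zero, hev]
    simp only [hu] at h1
    exact h1
  rw [hP, map_zero] at hne
  exact hne rfl

/-- The points of a box for which `t` of the vectors are near a hyperplane. -/
theorem count_group {ι : Type} [Fintype ι] {n N : ℕ} (t : ℕ) (w : ι → Fin N → Fin n → ℝ)
    (hgen : ∀ T : Finset (Fin N), T.card = t → ∃ m : ι → ℝ,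
      Submodule.span ℝ (Set.range fun (i : T) (j : Fin n) => ∑ k, m k * w k i j) = ⊤) (B : ℝ) :
    ∃ c : ℝ, 0 ≤ c ∧ ∀ R : ℕ, 1 ≤ R → ∀ S : Finset (ι → ℤ),
      (∀ e ∈ S, (∀ k, |e k| ≤ R) ∧ ∃ T : Finset (Fin N), T.card = t ∧ ∃ φ : Fin n → ℝ, ‖φ‖ = 1 ∧
        ∀ i ∈ T, |∑ j, φ j * ∑ k, (e k : ℝ) * w k i j| ≤ B) →
      (S.card : ℝ) ≤ c * (R : ℝ) ^ ((Fintype.card ι : ℝ) - 1 / n) := by
  classical
  rcases Nat.eq_zero_or_pos n with hn | hn
  · subst hn
    refine ⟨0, le_rfl, fun R hR S hS => ?_⟩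
    have h1 : S = ∅ := by
      rw [Finset.eq_empty_iff_forall_notMem]
      intro e he
      obtain ⟨-, T, -, φ, hφ, -⟩ := hS e he
      have h2 : φ = 0 := Subsingleton.elim _ _
      rw [h2, norm_zero] at hφ
      exact zero_ne_one hφ
    rw [h1]
    simp
  · have hone : ∀ T : Finset (Fin N), ∃ c : ℝ, 0 ≤ c ∧ (T.card = t → ∀ R : ℕ, 1 ≤ R →
        ∀ S : Finset (ι → ℤ), (∀ e ∈ S, (∀ k, |e k| ≤ R) ∧ ∃ φ : Fin n → ℝ, ‖φ‖ = 1 ∧
          ∀ i ∈ T, |∑ j, φ j * ∑ k, (e k : ℝ) * w k i j| ≤ B) →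
        (S.card : ℝ) ≤ c * (R : ℝ) ^ ((Fintype.card ι : ℝ) - 1 / n)) := by
      intro T
      by_cases hT : T.card = t
      · obtain ⟨m, hm⟩ := hgen T hT
        obtain ⟨f, u, hu⟩ := exists_minor (fun k (i : T) j => w k i j) m hm
        -- a bound for the entries
        set W : ℝ := ∑ k, ∑ a, ∑ j, |w k (f a) j| with hW
        have hW0 : 0 ≤ W := Finset.sum_nonneg fun _ _ => Finset.sum_nonneg fun _ _ =>
          Finset.sum_nonneg fun _ _ => abs_nonneg _
        obtain ⟨c, hc0, hc⟩ := count_det hn (fun k => Matrix.of fun a j => w k (f a) j) u hu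
          (C := n.factorial * (|B| * W ^ (n - 1))) (by positivity)
        refine ⟨c, hc0, fun _ R hR S hS => hc R hR S fun e he => ⟨(hS e he).1, ?_⟩⟩
        obtain ⟨hek, φ, hφ, hφB⟩ := hS e he
        have hent : ∀ a j, (∑ k, (e k : ℝ) • Matrix.of fun a j => w k (f a) j) a j =
            ∑ k, (e k : ℝ) * w k (f a) j := by
          intro a j
          rw [Matrix.sum_apply]
          rfl
        have h1 := det_small (∑ k, (e k : ℝ) • Matrix.of fun a j => w k (f a) j)
          (L := R * W) (B := |B|) (by positivity) (abs_nonneg _) (fun a j => ?_) φ hφ (fun a => ?_)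
        · refine h1.trans (le_of_eq ?_)
          rw [mul_pow]
          ring
        · rw [hent]
          calc |∑ k, (e k : ℝ) * w k (f a) j| ≤ ∑ k, |(e k : ℝ) * w k (f a) j| :=
                Finset.abs_sum_le_sum_abs _ _
            _ ≤ ∑ k, (R : ℝ) * |w k (f a) j| := by
                refine Finset.sum_le_sum fun k _ => ?_
                rw [abs_mul]
                refine mul_le_mul_of_nonneg_right ?_ (abs_nonneg _)
                exact_mod_cast hek k
            _ = R * ∑ k, |w k (f a) j| := by rw [Finset.mul_sum]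
            _ ≤ R * W := by
                refine mul_le_mul_of_nonneg_left ?_ (Nat.cast_nonneg _)
                refine Finset.sum_le_sum fun k _ => ?_
                calc |w k (f a) j| ≤ ∑ j, |w k (f a) j| :=
                      Finset.single_le_sum (f := fun j => |w k (f a) j|)
                        (fun _ _ => abs_nonneg _) (Finset.mem_univ j)
                  _ ≤ ∑ a, ∑ j, |w k (f a) j| :=
                      Finset.single_le_sum (f := fun a => ∑ j, |w k (f a) j|)
                        (fun _ _ => Finset.sum_nonneg fun _ _ => abs_nonneg _) (Finset.mem_univ a)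
        · have h2 := hφB (f a) (f a).2
          simp only [hent]
          exact h2.trans (le_abs_self B)
      · exact ⟨0, le_rfl, fun h => absurd h hT⟩
    choose c hc0 hc using hone
    refine ⟨∑ T, c T, Finset.sum_nonneg fun T _ => hc0 T, fun R hR S hS => ?_⟩
    let ST : Finset (Fin N) → Finset (ι → ℤ) := fun T => S.filter fun e =>
      T.card = t ∧ ∃ φ : Fin n → ℝ, ‖φ‖ = 1 ∧
        ∀ i ∈ T, |∑ j, φ j * ∑ k, (e k : ℝ) * w k i j| ≤ B
    have hsub : S ⊆ Finset.univ.biUnion ST := by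
      intro e he
      obtain ⟨-, T, hT, h⟩ := hS e he
      exact Finset.mem_biUnion.2 ⟨T, Finset.mem_univ T, Finset.mem_filter.2 ⟨he, hT, h⟩⟩
    calc (S.card : ℝ) ≤ ((Finset.univ.biUnion ST).card : ℝ) := by
          exact_mod_cast Finset.card_le_card hsub
      _ ≤ ((∑ T, (ST T).card : ℕ) : ℝ) := by exact_mod_cast Finset.card_biUnion_le
      _ = ∑ T, ((ST T).card : ℝ) := by push_cast; rfl
      _ ≤ ∑ T, c T * (R : ℝ) ^ ((Fintype.card ι : ℝ) - 1 / n) := by
          refine Finset.sum_le_sum fun T _ => ?_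
          by_cases hT : T.card = t
          · exact hc T hT R hR _ fun e he => ⟨(hS e (Finset.mem_filter.1 he).1).1,
              (Finset.mem_filter.1 he).2.2⟩
          · have h1 : ST T = ∅ := Finset.filter_eq_empty_iff.2 fun e _ h => hT h.1
            rw [h1, Finset.card_empty, Nat.cast_zero]
            exact mul_nonneg (hc0 T) (Real.rpow_nonneg (Nat.cast_nonneg _) _)
      _ = (∑ T, c T) * (R : ℝ) ^ ((Fintype.card ι : ℝ) - 1 / n) := by rw [Finset.sum_mul]

end Pool.Agent.Q116.GT
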