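import Pool.Agent.Q116.GT.Unit

/-!
# Conjugate vectors of units of totally real fields

Helper file.
-/

set_option autoImplicit false

namespace Pool.Agent.Q116.GT

open Finset NumberField NumberField.Units NumberField.InfinitePlace
open NumberField.Units.dirichletUnitTheorem

/-- Many elements with small neighbourhoods contain independent ones. -/
theorem exists_indep {α : Type} [DecidableEq α] (T : Finset α) (nb : α → Finset α) (D n : ℕ)
    (hself : ∀ a, a ∈ nb a) (hsymm : ∀ a b, b ∈ nb a → a ∈ nb b) (hD : ∀ a, (nb a).card ≤ D)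
    (hT : (n - 1) * D < T.card) : ∃ A ⊆ T, A.card = n ∧ ∀ a ∈ A, ∀ b ∈ A, b ∈ nb a → a = b := by
  classical
  let P : Finset α → Prop := fun A => ∀ a ∈ A, ∀ b ∈ A, b ∈ nb a → a = b
  obtain ⟨A, hA, hmax⟩ := Finset.exists_max_image (T.powerset.filter P) Finset.card
    ⟨∅, Finset.mem_filter.2 ⟨Finset.empty_mem_powerset T, fun a ha => absurd ha (Finset.notMem_empty a)⟩⟩
  obtain ⟨hAT, hAP⟩ := Finset.mem_filter.1 hA
  rw [Finset.mem_powerset] at hAT
  have hcov : T ⊆ A.biUnion nb := by
    intro x hx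
    by_contra hcon
    have h1 : ∀ a ∈ A, x ∉ nb a := fun a ha h => hcon (Finset.mem_biUnion.2 ⟨a, ha, h⟩)
    have hxA : x ∉ A := fun h => h1 x h (hself x)
    have h2 : insert x A ∈ T.powerset.filter P := by
      refine Finset.mem_filter.2 ⟨Finset.mem_powerset.2 (Finset.insert_subset hx hAT), ?_⟩
      intro a ha b hb hab
      rcases Finset.mem_insert.1 ha with ha' | ha'
      · rcases Finset.mem_insert.1 hb with hb' | hb'
        · rw [ha', hb']
        · rw [ha'] at hab
          exact absurd (hsymm _ _ hab) (h1 b hb')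
      · rcases Finset.mem_insert.1 hb with hb' | hb'
        · rw [hb'] at hab
          exact absurd hab (h1 a ha')
        · exact hAP a ha' b hb' hab
    have h3 := hmax _ h2
    rw [Finset.card_insert_of_notMem hxA] at h3
    omega
  have h1 : T.card ≤ A.card * D := by
    refine (Finset.card_le_card hcov).trans (Finset.card_biUnion_le.trans ?_)
    exact (Finset.sum_le_sum fun a _ => hD a).trans (by rw [Finset.sum_const, smul_eq_mul])
  have h2 : n ≤ A.card := by
    by_contra hlt
    have h3 : A.card ≤ n - 1 := by omega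
    exact absurd (h1.trans (Nat.mul_le_mul_right D h3)) (by omega)
  obtain ⟨A', hA', hc⟩ := Finset.exists_subset_card_eq h2
  exact ⟨A', hA'.trans hAT, hc, fun a ha b hb => hAP a (hA' ha) b (hA' hb)⟩

variable {F : Type} [Field F] [NumberField F]

/-- The value at a conjugate is the value at the translated place. -/
lemma place_conj (σ : F ≃ₐ[ℚ] F) (w : InfinitePlace F) (x : F) : w (σ x) = (σ⁻¹ • w) x := by
  rw [InfinitePlace.smul_apply]
  rfl

lemma smul_inj (hF : IsTotallyReal F) (w : InfinitePlace F) {σ σ' : F ≃ₐ[ℚ] F}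
    (h : σ • w = σ' • w) : σ = σ' := by
  have h1 : σ'⁻¹ * σ ∈ MulAction.stabilizer (F ≃ₐ[ℚ] F) w := by
    rw [MulAction.mem_stabilizer_iff, mul_smul, h, inv_smul_smul]
  have h2 : MulAction.stabilizer (F ≃ₐ[ℚ] F) w = ⊥ :=
    IsUnramified.stabilizer_eq_bot (IsReal.isUnramified ℚ (hF.isReal w))
  rw [h2, Subgroup.mem_bot] at h1
  exact (inv_mul_eq_one.1 h1).symm

/-- **Conjugate vectors of units.** -/
theorem conj_generic (hF : IsTotallyReal F) {n : ℕ} (σ : Fin n → (F ≃ₐ[ℚ] F))
    (hσ : Function.Injective σ) (T : Finset (InfinitePlace F)) (hT : T.card = n ^ 3)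
    (hN : n ^ 3 < Fintype.card (InfinitePlace F)) :
    ∃ m : Fin (rank F) → ℝ, Submodule.span ℝ (Set.range fun (w : T) (j : Fin n) =>
      ∑ k, m k * Real.log (w.1 (σ j (fundSystem F k : F)))) = ⊤ := by
  classical
  rcases Nat.eq_zero_or_pos n with hn | hn
  · subst hn
    refine ⟨0, ?_⟩
    exact Subsingleton.elim _ _
  -- independent places
  let nb : InfinitePlace F → Finset (InfinitePlace F) := fun w =>
    (Finset.univ : Finset (Fin n × Fin n)).image fun a => (σ a.1 * (σ a.2)⁻¹) • w
  have hD : ∀ w, (nb w).card ≤ n ^ 2 := by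
    intro w
    refine Finset.card_image_le.trans (le_of_eq ?_)
    rw [Finset.card_univ, Fintype.card_prod, Fintype.card_fin, sq]
  obtain ⟨A, hAT, hAc, hA⟩ := exists_indep T nb (n ^ 2) n
    (fun w => Finset.mem_image.2 ⟨(⟨0, hn⟩, ⟨0, hn⟩), Finset.mem_univ _, by
      simp⟩)
    (fun w w' h => by
      obtain ⟨a, -, ha⟩ := Finset.mem_image.1 h
      refine Finset.mem_image.2 ⟨(a.2, a.1), Finset.mem_univ _, ?_⟩
      rw [← ha, smul_smul]
      simp)
    hD (by
      rw [hT]
      have h1 : n ^ 3 = n * n ^ 2 := by ring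
      rw [h1]
      exact Nat.mul_lt_mul_of_pos_right (by omega) (by positivity))
  let idx : A ≃ Fin n := Finset.equivFinOfCardEq hAc
  -- the relevant places
  let U : Finset (InfinitePlace F) :=
    (A ×ˢ (Finset.univ : Finset (Fin n))).image fun a => (σ a.2)⁻¹ • a.1
  have hU : U.card < Fintype.card (InfinitePlace F) := by
    refine lt_of_le_of_lt ?_ hN
    refine Finset.card_image_le.trans ?_
    rw [Finset.card_product, hAc, Finset.card_univ, Fintype.card_fin]
    nlinarith [Nat.mul_le_mul_left (n * n) hn]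
  obtain ⟨m, hm⟩ := units_surj F U hU (fun z => if ∃ w : A, z = (σ (idx w))⁻¹ • w.1 then 1 else 0)
  refine ⟨m, ?_⟩
  have hval : ∀ (w : A) (j : Fin n),
      ∑ k, m k * Real.log (w.1 (σ j (fundSystem F k : F))) = if j = idx w then 1 else 0 := by
    intro w j
    have h1 := hm ((σ j)⁻¹ • w.1) (Finset.mem_image.2 ⟨(w.1, j),
      Finset.mem_product.2 ⟨w.2, Finset.mem_univ _⟩, rfl⟩)
    have h2 : ∑ k, m k * Real.log (w.1 (σ j (fundSystem F k : F))) =
        ∑ k, m k * Real.log (((σ j)⁻¹ • w.1) (fundSystem F k : F)) := by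
      refine Finset.sum_congr rfl fun k _ => ?_
      rw [place_conj]
    rw [h2, h1]
    by_cases hj : j = idx w
    · rw [if_pos hj, if_pos ⟨w, by rw [hj]⟩]
    · rw [if_neg hj, if_neg]
      rintro ⟨w', hw'⟩
      -- `w` and `w'` are neighbours
      have h3 : w.1 = w'.1 := by
        refine hA w.1 w.2 w'.1 w'.2 (Finset.mem_image.2 ⟨(idx w', j), Finset.mem_univ _, ?_⟩)
        change (σ (idx w') * (σ j)⁻¹) • w.1 = w'.1
        rw [mul_smul, hw', smul_inv_smul]
      have h4 : w = w' := Subtype.ext h3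
      rw [← h4] at hw'
      have h5 := smul_inj hF w.1 hw'
      exact hj (hσ (inv_injective h5))
  rw [eq_top_iff, ← (Pi.basisFun ℝ (Fin n)).span_eq, Submodule.span_le]
  rintro _ ⟨j, rfl⟩
  refine Submodule.subset_span ⟨⟨(idx.symm j).1, hAT (idx.symm j).2⟩, ?_⟩
  funext j'
  change ∑ k, m k * Real.log ((idx.symm j).1 (σ j' (fundSystem F k : F))) = _
  rw [hval (idx.symm j) j', Equiv.apply_symm_apply, Pi.basisFun_apply, Pi.single_apply]

end Pool.Agent.Q116.GT
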