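import Pool.Agent.Q116.GT.Cnt

/-!
# Logarithms of units at a proper subset of the archimedean places

Helper file.
-/

set_option autoImplicit false

namespace Pool.Agent.Q116.GT

open Finset NumberField NumberField.Units NumberField.InfinitePlace
open NumberField.Units.dirichletUnitTheorem

/-- The logarithms of the fundamental units span the space of logarithms. -/
theorem units_span (F : Type) [Field F] [NumberField F] (z : logSpace F) :
    ∃ m : Fin (rank F) → ℝ, ∀ w : {w : InfinitePlace F // w ≠ w₀},
      ∑ k, m k * (mult w.1 * Real.log (w.1 (fundSystem F k : F))) = z w := by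
  classical
  have h1 : Submodule.span ℝ (Set.range fun k : Fin (rank F) =>
      logEmbedding F (Additive.ofMul (fundSystem F k))) = ⊤ := by
    rw [eq_top_iff, ← unitLattice_span_eq_top F, Submodule.span_le]
    intro x hx
    have h2 := (basisUnitLattice F).sum_repr ⟨x, hx⟩
    have h3 : x = ∑ k, ((basisUnitLattice F).repr ⟨x, hx⟩ k) •
        ((basisUnitLattice F k : unitLattice F) : logSpace F) := by
      have h4 := congrArg (fun z : unitLattice F => (z : logSpace F)) h2
      simp only [Submodule.coe_sum, Submodule.coe_smul] at h4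
      exact h4.symm
    rw [SetLike.mem_coe, h3]
    refine Submodule.sum_mem _ fun k _ => ?_
    rw [← Int.cast_smul_eq_zsmul ℝ]
    refine Submodule.smul_mem _ _ (Submodule.subset_span ⟨k, ?_⟩)
    exact logEmbedding_fundSystem F k
  have h2 : z ∈ Submodule.span ℝ (Set.range fun k : Fin (rank F) =>
      logEmbedding F (Additive.ofMul (fundSystem F k))) := by
    rw [h1]
    exact Submodule.mem_top
  obtain ⟨m, hm⟩ := (Submodule.mem_span_range_iff_exists_fun ℝ).1 h2
  refine ⟨m, fun w => ?_⟩
  have h3 := congrFun hm w
  rw [Finset.sum_apply] at h3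
  rw [← h3]
  rfl

/-- The logarithms of the units at a proper subset of the archimedean places are arbitrary. -/
theorem units_surj (F : Type) [Field F] [NumberField F] (T : Finset (InfinitePlace F))
    (hT : T.card < Fintype.card (InfinitePlace F)) (y : InfinitePlace F → ℝ) :
    ∃ m : Fin (rank F) → ℝ, ∀ w ∈ T, ∑ k, m k * Real.log (w (fundSystem F k : F)) = y w := by
  classical
  obtain ⟨w₁, hw₁⟩ : ∃ w₁, w₁ ∉ T := by
    by_contra hcon
    push Not at hcon
    have h1 : T = Finset.univ := Finset.eq_univ_iff_forall.2 hcon
    rw [h1, Finset.card_univ] at hT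
    exact lt_irrefl _ hT
  have hmult : ∀ w : InfinitePlace F, (mult w : ℝ) ≠ 0 := fun w => mult_coe_ne_zero
  -- a vector of weighted sum zero with the given values on `T`
  let x : InfinitePlace F → ℝ := fun w => if w ∈ T then y w else
    if w = w₁ then -(∑ w ∈ T, mult w * y w) / mult w₁ else 0
  have hxT : ∀ w ∈ T, x w = y w := fun w hw => if_pos hw
  have hxsum : ∑ w, (mult w : ℝ) * x w = 0 := by
    rw [← Finset.sum_filter_add_sum_filter_not Finset.univ (fun w => w ∈ T)]
    have h1 : ∑ w ∈ Finset.univ.filter (fun w => w ∈ T), (mult w : ℝ) * x w =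
        ∑ w ∈ T, mult w * y w := by
      rw [Finset.filter_univ_mem]
      exact Finset.sum_congr rfl fun w hw => by rw [hxT w hw]
    have h2 : ∑ w ∈ Finset.univ.filter (fun w => ¬ w ∈ T), (mult w : ℝ) * x w =
        -(∑ w ∈ T, mult w * y w) := by
      rw [Finset.sum_eq_single w₁]
      · have h3 : x w₁ = -(∑ w ∈ T, mult w * y w) / mult w₁ := by
          change (if w₁ ∈ T then y w₁ else if w₁ = w₁ then _ else 0) = _
          rw [if_neg hw₁, if_pos rfl]
        rw [h3, mul_div_cancel₀ _ (hmult w₁)]
      · intro w hw hne
        have h3 : x w = 0 := by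
          change (if w ∈ T then y w else if w = w₁ then _ else 0) = _
          rw [if_neg (Finset.mem_filter.1 hw).2, if_neg hne]
        rw [h3, mul_zero]
      · intro h
        exact absurd (by simpa using hw₁) h
    rw [h1, h2, add_neg_cancel]
  obtain ⟨m, hm⟩ := units_span F (fun w => mult w.1 * x w.1)
  refine ⟨m, fun w hw => ?_⟩
  rw [← hxT w hw]
  by_cases hw0 : w = w₀
  · subst hw0
    have h1 : ∀ k, (mult (w₀ : InfinitePlace F) : ℝ) * Real.log (w₀ (fundSystem F k : F)) =
        -∑ w' : {w : InfinitePlace F // w ≠ w₀},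
          mult w'.1 * Real.log (w'.1 (fundSystem F k : F)) := by
      intro k
      have h2 := sum_logEmbedding_component (fundSystem F k)
      have h3 : ∑ w' : {w : InfinitePlace F // w ≠ w₀},
          (mult w'.1 : ℝ) * Real.log (w'.1 (fundSystem F k : F)) =
          -mult (w₀ : InfinitePlace F) * Real.log (w₀ (fundSystem F k : F)) := h2
      rw [h3]
      ring
    have h2 : (mult (w₀ : InfinitePlace F) : ℝ) *
        ∑ k, m k * Real.log (w₀ (fundSystem F k : F)) = mult (w₀ : InfinitePlace F) * x w₀ := by
      have h3 : (mult (w₀ : InfinitePlace F) : ℝ) *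
          ∑ k, m k * Real.log (w₀ (fundSystem F k : F)) =
          -∑ w' : {w : InfinitePlace F // w ≠ w₀}, mult w'.1 * x w'.1 := by
        rw [Finset.mul_sum]
        have h4 : ∀ k, (mult (w₀ : InfinitePlace F) : ℝ) *
            (m k * Real.log (w₀ (fundSystem F k : F))) =
            -∑ w' : {w : InfinitePlace F // w ≠ w₀},
              m k * (mult w'.1 * Real.log (w'.1 (fundSystem F k : F))) := by
          intro k
          rw [← Finset.mul_sum, mul_left_comm, h1 k]
          ring
        rw [Finset.sum_congr rfl fun k _ => h4 k, Finset.sum_neg_distrib, Finset.sum_comm]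
        congr 1
        exact Finset.sum_congr rfl fun w' _ => hm w'
      rw [h3]
      rw [Fintype.sum_eq_add_sum_subtype_ne _ w₀] at hxsum
      linarith
    exact mul_left_cancel₀ (hmult _) h2
  · have h1 := hm ⟨w, hw0⟩
    have h2 : (mult w : ℝ) * ∑ k, m k * Real.log (w (fundSystem F k : F)) = mult w * x w := by
      rw [← h1, Finset.mul_sum]
      exact Finset.sum_congr rfl fun k _ => by ring
    exact mul_left_cancel₀ (hmult _) h2

end Pool.Agent.Q116.GT
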